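import Pool.Agent.D0H11.GY.Stm
import Pool.Agent.D0H87.TW.R4b

/-!
# Project GY (helper11), module CNT2: the numbers of the quadruples and of the pairs
(after helper30's module CNT of project GM)
-/

set_option autoImplicit false

namespace Pool.Agent.D0H22.GY

open Finset Pool.Agent.D0H11.GY

lemma mem_QQ {M : ℕ} {q : Fin 4 → ℕ} :
    q ∈ QQ M ↔ (∀ i, M ≤ q i ∧ q i < M + M / 2) ∧ Odd (nn q) := by
  unfold QQ
  rw [mem_filter, Fintype.mem_piFinset]
  simp only [mem_Ico]

/-- (i) many quadruples -/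
theorem card_ge (M : ℕ) (hM : 4 ≤ M) : (M : ℝ) ^ 4 ≤ 189 * ((QQ M).card : ℝ) := by
  have h1 : ((Fintype.piFinset fun _ : Fin 3 => Ico M (M + M / 2)) ×ˢ range (M / 4)).card ≤ (QQ M).card := by
    apply card_le_card_of_injOn (fun p => ![p.1 0, p.1 1,
      M + 2 * p.2 + (1 - (p.1 0 + p.1 1 + M) % 2), p.1 2])
    · intro p hp
      rw [mem_coe, mem_product, Fintype.mem_piFinset, mem_range] at hp
      obtain ⟨h0, h2⟩ := hp
      have a0 := mem_Ico.1 (h0 0)
      have a1 := mem_Ico.1 (h0 1)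
      have a2 := mem_Ico.1 (h0 2)
      rw [mem_coe, mem_QQ]
      constructor
      · intro i
        fin_cases i
        · simpa using a0
        · simpa using a1
        · simp only [Fin.reduceFinMk, Matrix.cons_val]
          constructor <;> omega
        · simpa using a2
      · unfold nn
        simp only [Matrix.cons_val]
        have key : ∀ a b c d : ℕ, (a + b + c) % 2 = 1 → Odd (a ^ 2 + b ^ 2 + c ^ 2 + 4 * d ^ 2) := by
          intro a b c d h
          rw [Nat.odd_iff]
          have e : ∀ x : ℕ, x ^ 2 % 2 = x % 2 := by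
            intro x
            rcases Nat.mod_two_eq_zero_or_one x with h | h <;> simp [Nat.pow_mod, h]
          have e1 := e a
          have e2 := e b
          have e3 := e c
          omega
        apply key
        omega
    · intro p _ p' _ h
      simp only at h
      have e0 := congrFun h 0
      have e1 := congrFun h 1
      have e2 := congrFun h 2
      have e3 := congrFun h 3
      simp only [Matrix.cons_val] at e0 e1 e2 e3
      rw [e0, e1] at e2
      refine Prod.ext (funext fun i => ?_) (by omega)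
      fin_cases i
      · exact e0
      · exact e1
      · exact e3
  rw [card_product, Fintype.card_piFinset, card_range] at h1
  simp only [Nat.card_Ico, prod_const, card_univ, Fintype.card_fin] at h1
  have h2 : (M + M / 2 - M) = M / 2 := by omega
  rw [h2] at h1
  have h3 : M ≤ 3 * (M / 2) := by omega
  have h4 : M ≤ 7 * (M / 4) := by omega
  have h5 : M ^ 4 ≤ 189 * (QQ M).card := by
    calc M ^ 4 = M ^ 3 * M := by ring
      _ ≤ (3 * (M / 2)) ^ 3 * (7 * (M / 4)) := Nat.mul_le_mul (Nat.pow_le_pow_left h3 3) h4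
      _ = 189 * ((M / 2) ^ 3 * (M / 4)) := by ring
      _ ≤ 189 * (QQ M).card := Nat.mul_le_mul_left _ h1
  exact_mod_cast h5

/-- the coordinates with the last one doubled -/
def dbl (q : Fin 4 → ℕ) (i : Fin 4) : ℤ := if i = 3 then 2 * (q i : ℤ) else q i

open Classical in
/-- (ii) the second moment -/
theorem pairs_le (M : ℕ) (hM : 2 ≤ M) :
    ((((QQ M ×ˢ QQ M).filter fun p => nn p.1 = nn p.2).card : ℕ) : ℝ) ≤
      ((81 + 5832 * Pool.Agent.D0H87.TW.KZ) * 46656) * (M : ℝ) ^ 6 := by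
  have h1 : ((QQ M ×ˢ QQ M).filter fun p => nn p.1 = nn p.2).card ≤
      (Pool.Agent.D0H87.TW.Z4 (6 * M)).card := by
    apply card_le_card_of_injOn (fun p => ((fun i => dbl p.1 i - dbl p.2 i), fun i => dbl p.1 i + dbl p.2 i))
    · intro p hp
      rw [mem_coe, mem_filter, mem_product] at hp
      obtain ⟨⟨h2, h3⟩, h4⟩ := hp
      have a := (mem_QQ.1 h2).1
      have b := (mem_QQ.1 h3).1
      have hb : ∀ i, (0 ≤ dbl p.1 i ∧ dbl p.1 i ≤ 3 * M) ∧ (0 ≤ dbl p.2 i ∧ dbl p.2 i ≤ 3 * M) := by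
        intro i
        have := a i
        have := b i
        unfold dbl
        split_ifs <;> constructor <;> constructor <;> omega
      rw [mem_coe]
      unfold Pool.Agent.D0H87.TW.Z4
      rw [mem_filter, mem_product, Pool.Agent.D0H87.TW.mem_bx, Pool.Agent.D0H87.TW.mem_bx]
      refine ⟨⟨fun i => ?_, fun i => ?_⟩, ?_⟩
      · have := hb i
        simp only
        rw [abs_le]
        push_cast
        constructor <;> omega
      · have := hb i
        simp only
        rw [abs_le]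
        push_cast
        constructor <;> omega
      · unfold nn at h4
        have h5 : ((p.1 0 : ℤ) ^ 2 + (p.1 1 : ℤ) ^ 2 + (p.1 2 : ℤ) ^ 2 + 4 * (p.1 3 : ℤ) ^ 2) =
            (p.2 0 : ℤ) ^ 2 + (p.2 1 : ℤ) ^ 2 + (p.2 2 : ℤ) ^ 2 + 4 * (p.2 3 : ℤ) ^ 2 := by
          exact_mod_cast h4
        have e0 : ∀ q : Fin 4 → ℕ, dbl q 0 = q 0 ∧ dbl q 1 = q 1 ∧ dbl q 2 = q 2 ∧ dbl q 3 = 2 * q 3 := by
          intro q
          refine ⟨?_, ?_, ?_, ?_⟩
          · exact if_neg (by decide)
          · exact if_neg (by decide)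
          · exact if_neg (by decide)
          · exact if_pos rfl
        obtain ⟨g0, g1, g2, g3⟩ := e0 p.1
        obtain ⟨k0, k1, k2, k3⟩ := e0 p.2
        simp only [Fin.sum_univ_four]
        rw [g0, g1, g2, g3, k0, k1, k2, k3]
        linear_combination h5
    · intro p _ p' _ h
      simp only [Prod.mk.injEq] at h
      have e : ∀ i, p.1 i = p'.1 i ∧ p.2 i = p'.2 i := by
        intro i
        have h1 := congrFun h.1 i
        have h2 := congrFun h.2 i
        simp only [dbl] at h1 h2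
        split_ifs at h1 h2 <;> constructor <;> omega
      exact Prod.ext (funext fun i => (e i).1) (funext fun i => (e i).2)
  have h2 := Pool.Agent.D0H87.TW.Z4_card (6 * M) (by omega)
  have h3 : ((((QQ M ×ˢ QQ M).filter fun p => nn p.1 = nn p.2).card : ℕ) : ℝ) ≤
      ((Pool.Agent.D0H87.TW.Z4 (6 * M)).card : ℝ) := by exact_mod_cast h1
  refine h3.trans (h2.trans (le_of_eq ?_))
  push_cast
  ring

lemma aux {a b c d : ℕ} (hab : a ≤ b) (hcd : c ≤ d) (hac : a ≤ c)
    (h : 2 ^ a + 2 ^ b = 2 ^ c + 2 ^ d) : a = c ∧ b = d := by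
  obtain ⟨b, rfl⟩ := Nat.exists_eq_add_of_le hab
  obtain ⟨c, rfl⟩ := Nat.exists_eq_add_of_le hac
  obtain ⟨d, rfl⟩ := Nat.exists_eq_add_of_le (hac.trans hcd)
  have h1 : 1 + 2 ^ b = 2 ^ c + 2 ^ d := by
    have h2 : 2 ^ a * (1 + 2 ^ b) = 2 ^ a * (2 ^ c + 2 ^ d) := by
      rw [mul_add, mul_add, mul_one, ← pow_add, ← pow_add, ← pow_add]
      exact h
    exact Nat.eq_of_mul_eq_mul_left (by positivity) h2
  rcases Nat.eq_zero_or_pos c with h0 | h0
  · subst h0
    rw [pow_zero] at h1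
    have h2 : 2 ^ b = 2 ^ d := by omega
    have h3 := Nat.pow_right_injective (le_refl 2) h2
    omega
  · exfalso
    have hd : 1 ≤ d := by omega
    obtain ⟨c', rfl⟩ : ∃ c', c = c' + 1 := ⟨c - 1, by omega⟩
    obtain ⟨d', rfl⟩ : ∃ d', d = d' + 1 := ⟨d - 1, by omega⟩
    have hc2 : 1 ≤ 2 ^ c' := Nat.one_le_two_pow
    have hd2 : 1 ≤ 2 ^ d' := Nat.one_le_two_pow
    rw [pow_succ, pow_succ] at h1
    rcases Nat.eq_zero_or_pos b with hb | hb
    · subst hb
      rw [pow_zero] at h1
      omega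
    · obtain ⟨b', rfl⟩ : ∃ b', b = b' + 1 := ⟨b - 1, by omega⟩
      rw [pow_succ] at h1
      omega

lemma two_pow_add {a b c d : ℕ} (h : 2 ^ a + 2 ^ b = 2 ^ c + 2 ^ d) :
    (a = c ∧ b = d) ∨ (a = d ∧ b = c) := by
  rcases Nat.le_total a b with h1 | h1 <;> rcases Nat.le_total c d with h2 | h2
  · rcases Nat.le_total a c with h3 | h3
    · exact Or.inl (aux h1 h2 h3 h)
    · have := aux h2 h1 h3 h.symm
      omega
  · rcases Nat.le_total a d with h3 | h3
    · have := aux h1 h2 h3 (by omega)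
      omega
    · have := aux h2 h1 h3 (by omega)
      omega
  · rcases Nat.le_total b c with h3 | h3
    · have := aux h1 h2 h3 (by omega)
      omega
    · have := aux h2 h1 h3 (by omega)
      omega
  · rcases Nat.le_total b d with h3 | h3
    · have := aux h1 h2 h3 (by omega)
      omega
    · have := aux h2 h1 h3 (by omega)
      omega

open Classical in
/-- (iii) the pairs with proportional coefficients -/
theorem prop_le (M : ℕ) (hM : 2 ≤ M) :
    ((((QQ M ×ˢ QQ M).filter fun p => nn p.1 = nn p.2 ∧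
      (2 ^ p.1 0 + 2 ^ p.1 1) * 2 ^ p.2 2 = (2 ^ p.2 0 + 2 ^ p.2 1) * 2 ^ p.1 2).card : ℕ) : ℝ) ≤
      4 * (M : ℝ) ^ 5 := by
  set S := (QQ M ×ˢ QQ M).filter fun p => nn p.1 = nn p.2 ∧
      (2 ^ p.1 0 + 2 ^ p.1 1) * 2 ^ p.2 2 = (2 ^ p.2 0 + 2 ^ p.2 1) * 2 ^ p.1 2 with hS
  have hmem : ∀ p ∈ S, (∀ i, M ≤ p.1 i ∧ p.1 i < M + M / 2) ∧ (∀ i, M ≤ p.2 i ∧ p.2 i < M + M / 2) ∧
      nn p.1 = nn p.2 ∧ ((p.1 0 + p.2 2 = p.2 0 + p.1 2 ∧ p.1 1 + p.2 2 = p.2 1 + p.1 2) ∨
        (p.1 0 + p.2 2 = p.2 1 + p.1 2 ∧ p.1 1 + p.2 2 = p.2 0 + p.1 2)) := by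
    intro p hp
    rw [hS, mem_filter, mem_product, mem_QQ, mem_QQ] at hp
    obtain ⟨⟨h1, h2⟩, h3, h4⟩ := hp
    refine ⟨h1.1, h2.1, h3, ?_⟩
    rw [add_mul, add_mul, ← pow_add, ← pow_add, ← pow_add, ← pow_add] at h4
    exact two_pow_add h4
  have h1 : S.card ≤ (((Fintype.piFinset fun _ : Fin 4 => Ico M (M + M / 2)) ×ˢ range (2 * M)) ×ˢ
      (univ : Finset Bool)).card := by
    apply card_le_card_of_injOn (fun p => ((p.1, p.2 2), decide (p.1 0 + p.2 2 = p.2 0 + p.1 2 ∧
      p.1 1 + p.2 2 = p.2 1 + p.1 2)))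
    · intro p hp
      obtain ⟨h1, h2, -, -⟩ := hmem p hp
      rw [mem_coe, mem_product, mem_product, Fintype.mem_piFinset, mem_range]
      refine ⟨⟨fun i => mem_Ico.2 (h1 i), ?_⟩, mem_univ _⟩
      have := h2 2
      simp only
      omega
    · intro p hp p' hp' h
      obtain ⟨_, _, e1, f1⟩ := hmem p hp
      obtain ⟨_, _, e2, f2⟩ := hmem p' hp'
      simp only [Prod.mk.injEq, decide_eq_decide] at h
      obtain ⟨⟨g1, g2⟩, g3⟩ := h
      rw [← g1] at e2 f2 g3
      rw [← g2] at f2 g3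
      have k : p.2 0 = p'.2 0 ∧ p.2 1 = p'.2 1 := by
        by_cases hc : p.1 0 + p.2 2 = p.2 0 + p.1 2 ∧ p.1 1 + p.2 2 = p.2 1 + p.1 2
        · have hc' := g3.1 hc
          omega
        · have hc' : ¬ (p.1 0 + p.2 2 = p'.2 0 + p.1 2 ∧ p.1 1 + p.2 2 = p'.2 1 + p.1 2) :=
            fun h => hc (g3.2 h)
          have f1' := f1.resolve_left hc
          have f2' := f2.resolve_left hc'
          omega
      have k3 : p.2 3 = p'.2 3 := by
        have h5 : nn p.2 = nn p'.2 := e1.symm.trans e2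
        unfold nn at h5
        rw [k.1, k.2, g2] at h5
        have h6 : p.2 3 ^ 2 = p'.2 3 ^ 2 := by omega
        exact Nat.pow_left_injective (by norm_num) h6
      refine Prod.ext g1 (funext fun i => ?_)
      fin_cases i
      · exact k.1
      · exact k.2
      · exact g2
      · exact k3
  rw [card_product, card_product, Fintype.card_piFinset, card_range] at h1
  simp only [Nat.card_Ico, prod_const, card_univ, Fintype.card_fin, Fintype.card_bool] at h1
  have h2 : (M + M / 2 - M) ≤ M := by omega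
  have h3 : S.card ≤ M ^ 4 * (2 * M) * 2 :=
    h1.trans (Nat.mul_le_mul_right _ (Nat.mul_le_mul_right _ (Nat.pow_le_pow_left h2 4)))
  have h4 : (S.card : ℝ) ≤ (M : ℝ) ^ 4 * (2 * M) * 2 := by exact_mod_cast h3
  refine h4.trans (le_of_eq ?_)
  ring

/-- the numbers of the quadruples and of the pairs -/
theorem t_CNT2 : S_CNT2 := by
  have hKZ := Pool.Agent.D0H87.TW.KZ_nonneg
  refine ⟨189 + (81 + 5832 * Pool.Agent.D0H87.TW.KZ) * 46656 + 4, by positivity, ?_, ?_, ?_⟩
  · intro M hM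
    refine (card_ge M hM).trans ?_
    apply mul_le_mul_of_nonneg_right _ (by positivity)
    have : 0 ≤ (81 + 5832 * Pool.Agent.D0H87.TW.KZ) * 46656 := by positivity
    linarith
  · intro M hM
    refine (pairs_le M hM).trans ?_
    apply mul_le_mul_of_nonneg_right _ (by positivity)
    linarith
  · intro M hM
    refine (prop_le M hM).trans ?_
    apply mul_le_mul_of_nonneg_right _ (by positivity)
    have : 0 ≤ (81 + 5832 * Pool.Agent.D0H87.TW.KZ) * 46656 := by positivity
    linarith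

end Pool.Agent.D0H22.GY
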